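import Pool.Agent.H295R3.W.FinalA

/-!
# `S(x) = ∑_{n ≤ x} (-2)^Ω(n)`: `α = limsup |S(x)|/x` is finite, and its exact value as a supremum

Let `T(u)` be the sum of `(-2)^Ω(n)` over the odd `n ≤ u` and
`G(t) = ∑_{i ≥ 0} (-1)^i T(2^i t)/(2^i t)`.  We prove: the series converges absolutely, faster than any power
of `i`, uniformly in `t ≥ 1`; `(-1)^k S(2^k t)/(2^k t) = G(t) + O_V((k+1)^{-V})` uniformly in `1 ≤ t < 2`;
`S(x) = O(x)`; `α = sup_{1 ≤ t < 2} |G(t)|`; and the dyadic suprema of `|S(x)|/x` converge to `α`, with error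
`O_V((k+1)^{-V})`.

Proof.  `f(n) = (-2)^Ω(n)` restricted to odd `n` is `μ * μ * g` with `∑ |g(n)| n^{-3/4} < ∞`, and the summatory
function of `μ * μ` is `O(y/(log y)^V)` for every `V` (prime number theorem with error term), so
`T(u) = O(u/(log u)^V)`; and `S(x) = ∑_k (-2)^k T(x/2^k)`.
-/

set_option autoImplicit false

open Finset ArithmeticFunction Filter Topology

namespace Pool.Agent.Results.MP_88bd62_nt.LimsupFormula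

/-- `S(x) = ∑_{1 ≤ n ≤ x} (-2)^Ω(n)` -/
noncomputable def S (x : ℝ) : ℝ := ∑ n ∈ Icc 1 ⌊x⌋₊, (-2 : ℝ) ^ (cardFactors n)

/-- `T(u) = ∑_{1 ≤ n ≤ u, n odd} (-2)^Ω(n)` -/
noncomputable def T (u : ℝ) : ℝ := ∑ n ∈ (Icc 1 ⌊u⌋₊).filter (fun n => n % 2 = 1), (-2 : ℝ) ^ (cardFactors n)

/-- `G(t) = ∑_{i ≥ 0} (-1)^i T(2^i t)/(2^i t)` -/
noncomputable def G (t : ℝ) : ℝ := ∑' i : ℕ, (-1 : ℝ) ^ i * (T (2 ^ i * t) / (2 ^ i * t))

/-- `α = limsup |S(x)|/x ∈ [0, ∞]` -/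
noncomputable def alpha : EReal := limsup (fun x : ℝ => ((|S x| / x : ℝ) : EReal)) atTop

theorem result :
    -- the series `G` converges absolutely, uniformly and faster than any power
    (∀ V : ℕ, ∃ C : ℝ, 0 < C ∧ ∀ t : ℝ, 1 ≤ t → ∀ i : ℕ,
      |T (2 ^ i * t) / (2 ^ i * t)| ≤ C / ((i : ℝ) + 1) ^ V) ∧
    -- `S(2^k t)/(2^k t) = (-1)^k G(t) + O_V((k+1)^{-V})`, uniformly in `1 ≤ t < 2`
    (∀ V : ℕ, ∃ C : ℝ, 0 < C ∧ ∀ t : ℝ, 1 ≤ t → t < 2 → ∀ k : ℕ,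
      |(-1 : ℝ) ^ k * (S (2 ^ k * t) / (2 ^ k * t)) - G t| ≤ C / ((k : ℝ) + 1) ^ V) ∧
    -- `S(x) = O(x)`
    (∃ B : ℝ, ∀ x : ℝ, 1 ≤ x → |S x| ≤ B * x) ∧
    -- `G` is bounded and `α = sup |G| < ∞`
    BddAbove ((fun t => |G t|) '' Set.Ico 1 2) ∧
    alpha = ((sSup ((fun t => |G t|) '' Set.Ico 1 2) : ℝ) : EReal) ∧ alpha < ⊤ ∧
    -- the dyadic suprema of `|S(x)|/x` converge to `α`, faster than any power of `k`
    (∀ V : ℕ, ∃ C : ℝ, 0 < C ∧ ∀ k : ℕ,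
      |sSup ((fun x => |S x| / x) '' Set.Ico ((2 : ℝ) ^ k) (2 ^ (k + 1))) - alpha.toReal| ≤
        C / ((k : ℝ) + 1) ^ V) := by
  have ha : alpha = ((sSup ((fun t => |G t|) '' Set.Ico 1 2) : ℝ) : EReal) :=
    Pool.Agent.H295R3.W.ereal_limsup
  obtain ⟨B, hB⟩ := Pool.Agent.H295R3.W.G_bdd Pool.Agent.H295R3.W.hT
  refine ⟨fun V => Pool.Agent.H295R3.W.term_bound Pool.Agent.H295R3.W.hT V,
    fun V => Pool.Agent.H295R3.W.approx Pool.Agent.H295R3.W.hT Pool.Agent.H295R3.W.hS V,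
    Pool.Agent.H295R3.W.S_bdd Pool.Agent.H295R3.W.hT Pool.Agent.H295R3.W.hS, ?_, ha, ?_, fun V => ?_⟩
  · exact ⟨B, by rintro _ ⟨t, ht, rfl⟩; exact hB t ht.1⟩
  · rw [ha]
    exact EReal.coe_lt_top _
  · rw [ha, EReal.toReal_coe]
    exact Pool.Agent.H295R3.W.dyadic V

end Pool.Agent.Results.MP_88bd62_nt.LimsupFormula
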